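import Pool.Agent.MWGX.StmtsA

/-! # Row REG of squad MWGX: the region -/

set_option autoImplicit false

namespace Pool.Agent.MWGX.H30

open Pool.Agent.Helper14_MV Pool.Agent.Helper2_MV
open Pool.Agent.MWGQ (pw Gn E0 A0 P0)
open Pool.Agent.MWGR (X It Kaba F1 Dm Ec Es Ea Al0 Rh FE)
open Pool.Agent.MWGX

theorem reg (h1 : Pn1Stmt) (h2 : Pn2Stmt) (h3 : Pn3Stmt) (h4 : Pn4Stmt) (_ : RhpStmt)
    (h6 : Di2Stmt) : RegStmt := by
  intro n β hM hG hE hI hF hfe
  by_cases hD : Dm n 1 (RR β)
  · left
    obtain ⟨i1, i2⟩ := h6 n β hG hI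
    exact
      { pos := hG.pos
        per := hG.per
        ga := hG.gm
        rn := hG.c
        f := hF
        i1 := i1
        i2 := i2 hD }
  · right
    have hk : Kaba (RR β) := (h1 n β hM hG hE hI hF).resolve_left hD
    have hall : ∀ q r, q * r = n → Nat.Coprime q r → Dm n r (RR β) ∨ Ea n q (RR β) :=
      h4 n β hM hG hE hI
    have fe : FE n 1 (RR β) ∨ (F1 n (RR β) ∧ (Al0 n (RR β) ∨ Rh n (RR β))) := by
      by_cases he : Es n 1 (RR β)
      · exact Or.inl (hfe he)
      · exact Or.inr ⟨(h2 n β hM hG hE hI).resolve_right he,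
          (h3 n β hM hG hE hI).resolve_left he⟩
    exact
      { pos := hG.pos
        per := hG.per
        ga := hG.gm
        rn := hG.c
        f := hF
        it := hI
        k := hk
        fe := fe
        hall := hall }

end Pool.Agent.MWGX.H30

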