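import Pool.Agent.MWGX.StmtsB

/-! # Row SPY of block MWGX: exchange, the special order -/

set_option autoImplicit false

namespace Pool.Agent.MWGX.H30

open Pool.Agent.Helper14_MV Pool.Agent.Helper2_MV
open Pool.Agent.MWK (pre)
open Pool.Agent.MWGN (nn Nm WC WT Tau Ns nl sg)
open Pool.Agent.MWGQ (pw Gn)
open Pool.Agent.MWGX

theorem spy (hO : ExoStmt) : SpyStmt := by
  intro n c p Z A B F G H w w' hn hE _ ν M nc hw hw'
  have hxa : ν.x ≠ ν.a := by
    intro e
    have := hw.x2
    rw [e, hw.sa] at this
    omega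
  have hya : ν.y ≠ ν.a := by
    intro e
    have := hw.y2
    rw [e, hw.sa] at this
    omega
  have h := hO n c p Z A B F G H w w' hn hE ν.x ν.y ν.a hw.sa hxa hya hw.xa hw.ya
  refine ⟨fun h1 h2 => ?_, fun h1 => ?_⟩
  · by_contra h3
    have h4 := h.1 h1 h3
    exact h2 ⟨h4.1, h4.2.1⟩
  · by_contra h3
    obtain ⟨hxB, hyA, _, _⟩ := h.2 h1 h3
    have e2 : w' = (p ++ (gR n c Z A B ++ (F ++ (A ++ G)))) ++ (B ++ H) := by
      rw [hE.e']
      simp only [List.append_assoc]
    generalize hP : p ++ (gR n c Z A B ++ (F ++ (A ++ G))) = P at e2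
    have hx7 : 1 ≤ (B ++ H).count ν.x := List.count_pos_iff.2 (List.mem_append_left _ hxB)
    have hμ : ν.L 0 ∉ P := by
      intro hm
      have h5 := hw'.xl 0 (Nat.zero_le _)
      unfold nn at h5
      rw [e2, MWK.pre_append_mem hm, List.count_append] at h5
      have h6 : (pre P (ν.L 0)).count ν.x ≤ P.count ν.x :=
        (MWK.pre_prefix _ _).sublist.count_le _
      omega
    have h8 := hw'.yl 0 (Nat.zero_le _)
    unfold nn at h8
    rw [e2, MWK.pre_append hμ, List.count_append, ← hP] at h8
    have h9 : 1 ≤ A.count ν.y := List.count_pos_iff.2 hyA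
    have h10 : A.count ν.y ≤ (gR n c Z A B).count ν.y := by
      unfold gR
      simp only [List.count_append]
      omega
    rw [List.count_append, List.count_append, List.count_append, List.count_append] at h8
    omega

end Pool.Agent.MWGX.H30

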